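import Mathlib
import Pool.Agent.W628.AbSalem.Final
import Pool.Agent.TH53.UG1

/-!
# Real numbers in cyclotomic fields
-/

set_option autoImplicit false

namespace Pool.Agent.V1156.PA

open Polynomial Module
open Pool.Agent.W628.AbSalem
open Pool.Agent.W963.GE (MM MM_ge)

/-- the conjugates of a real number in a cyclotomic field are real -/
theorem conj_real {N : ℕ} (hN : 0 < N) {β : ℝ} (hint : IsIntegral ℤ β)
    (hb : (β : ℂ) ∈ IntermediateField.adjoin ℚ {z : ℂ | z ^ N = 1}) {z : ℂ}
    (hz : aeval z (minpoly ℤ β) = 0) : z.im = 0 := by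
  classical
  haveI : NeZero N := ⟨by omega⟩
  have hζ : IsPrimitiveRoot (Complex.exp (2 * Real.pi * Complex.I / N)) N :=
    Complex.isPrimitiveRoot_exp N (NeZero.ne N)
  set ζ := Complex.exp (2 * Real.pi * Complex.I / N) with hζdef
  rw [cyc_eq hζ] at hb
  set F := IntermediateField.adjoin ℚ {ζ} with hF
  haveI hcyc : IsCyclotomicExtension {N} ℚ F := cyc_inst hζ
  haveI : NumberField F := IsCyclotomicExtension.numberField {N} ℚ F
  haveI hg : IsGalois ℚ F := IsCyclotomicExtension.isGalois {N} ℚ F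
  have hcomm : IsMulCommutative (F ≃ₐ[ℚ] F) := IsCyclotomicExtension.isMulCommutative {N} ℚ F
  set b : F := ⟨(β : ℂ), hb⟩ with hbdef
  let c : F ≃ₐ[ℚ] F := AlgEquiv.restrictNormal (Complex.conjAe.restrictScalars ℚ) F
  have hc : ∀ x : F, ((c x : F) : ℂ) = (starRingEnd ℂ) (x : ℂ) := by
    intro x
    exact AlgEquiv.restrictNormal_commutes (Complex.conjAe.restrictScalars ℚ) F x
  have hcb : c b = b := by
    apply Subtype.ext
    rw [hc]
    exact Complex.conj_ofReal β
  have hreal : ∀ s : F ≃ₐ[ℚ] F, ∃ r : ℝ, ((s b : F) : ℂ) = r := by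
    intro s
    rw [← Complex.conj_eq_iff_real, ← hc]
    have h1 : c * s = s * c := hcomm.is_comm.comm c s
    have h2 : c (s b) = s (c b) := by
      rw [← AlgEquiv.mul_apply, h1, AlgEquiv.mul_apply]
    rw [h2, hcb]
  have hinj : Function.Injective (algebraMap F ℂ) := (algebraMap F ℂ).injective
  -- `z` is a conjugate of `b`
  have hmb : minpoly ℚ b = minpoly ℚ β := by
    have h1 : minpoly ℚ b = minpoly ℚ (β : ℂ) := (minpoly.algebraMap_eq hinj b).symm
    have h2 : minpoly ℚ (β : ℂ) = minpoly ℚ β :=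
      minpoly.algebraMap_eq (algebraMap ℝ ℂ).injective β
    rw [h1, h2]
  have hmz : aeval z (minpoly ℚ b) = 0 := by
    rw [hmb, minpoly.isIntegrallyClosed_eq_field_fractions' ℚ hint, aeval_map_algebraMap]
    exact hz
  have hsplit : ((minpoly ℚ b).map (algebraMap ℚ F)).Splits := Normal.splits inferInstance b
  have hbQ : IsIntegral ℚ b := Algebra.IsIntegral.isIntegral b
  -- the roots of `minpoly ℚ b` in `ℂ` are the images of the roots in `F`
  have hroot : ∃ y : F, (y : ℂ) = z ∧ aeval y (minpoly ℚ b) = 0 := by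
    have h1 : ((minpoly ℚ b).map (algebraMap ℚ F)).map (algebraMap F ℂ) =
        (minpoly ℚ b).map (algebraMap ℚ ℂ) := by
      rw [Polynomial.map_map]
      congr 1
    have h2 := hsplit.roots_map (algebraMap F ℂ)
    have h3 : z ∈ (((minpoly ℚ b).map (algebraMap ℚ F)).map (algebraMap F ℂ)).roots := by
      rw [h1, mem_roots ((minpoly.monic hbQ).map _).ne_zero, IsRoot.def, eval_map]
      exact hmz
    rw [h2, Multiset.mem_map] at h3
    obtain ⟨y, hy, hyz⟩ := h3
    refine ⟨y, hyz, ?_⟩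
    rw [mem_roots ((minpoly.monic hbQ).map _).ne_zero, IsRoot.def, eval_map] at hy
    exact hy
  obtain ⟨y, hyz, hy⟩ := hroot
  have hconj : IsConjRoot ℚ b y := by
    rw [IsConjRoot]
    exact minpoly.eq_of_irreducible_of_monic (minpoly.irreducible hbQ) hy (minpoly.monic hbQ)
  obtain ⟨σ, hσ⟩ := isConjRoot_iff_exists_algEquiv.mp hconj
  -- `σ y = b`
  obtain ⟨r, hr⟩ := hreal σ.symm
  have h1 : σ.symm b = y := by rw [← hσ, AlgEquiv.symm_apply_apply]
  rw [h1, hyz] at hr
  rw [hr]
  exact Complex.ofReal_im r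

end Pool.Agent.V1156.PA
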